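import Pool.Agent.H927.MG.SGoals
import Pool.Graph.R_pool_sql_team_seeded_f72693b1.W523.Smooth2

/-!
# Project M4P1 (helper927): smoothness of the glued curve from the smoothness of the charts
-/

set_option autoImplicit false

open AlgebraicGeometry CategoryTheory Limits Polynomial
open scoped LaurentPolynomial
open LaurentPolynomial (T invert T_add T_zero involutive_invert invert_T invert_C)

namespace Pool.Agent.H190.MG927

open Pool.Agent.W523 Pool.Agent.H927.MG

/-- a point of a basic open set comes from the localization -/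
lemma exists_away' {A : Type} [CommRing A] (d : A) (q : Spec (.of A)) (hd : d ∉ q.asIdeal) :
    ∃ z, Spec.map (CommRingCat.ofHom (algebraMap A (Localization.Away d))) z = q := by
  obtain ⟨K, _, φ, hφ⟩ := exists_pt q
  refine exists_away d q φ hφ ?_
  intro h
  apply hd
  let x : Spec (.of K) := ⟨⊥, Ideal.isPrime_bot⟩
  rw [← hφ x]
  change φ d ∈ (⊥ : Ideal K)
  rw [h]
  exact Ideal.zero_mem _

variable {R : Type} [CommRing R] (G : GD R)
  (g1 : PrimeSpectrum (BB G.d1) → BB G.d1) (g2 : PrimeSpectrum (BB G.d2) → BB G.d2)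

/-- the members of the cover of the curve -/
noncomputable def cobj : PrimeSpectrum (BB G.d1) ⊕ PrimeSpectrum (BB G.d2) → Scheme.{0}
  | .inl p => Spec (.of (Localization.Away (g1 p)))
  | .inr p => Spec (.of (Localization.Away (g2 p)))

/-- the inclusions of the members of the cover -/
noncomputable def cmap : (i : PrimeSpectrum (BB G.d1) ⊕ PrimeSpectrum (BB G.d2)) →
    (cobj G g1 g2 i ⟶ Crv G)
  | .inl _ => Spec.map (CommRingCat.ofHom (algebraMap _ _)) ≫ (crvCharts G).j₁
  | .inr _ => Spec.map (CommRingCat.ofHom (algebraMap _ _)) ≫ (crvCharts G).j₂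

lemma ccov (h1 : ∀ p, g1 p ∉ p.asIdeal) (h2 : ∀ p, g2 p ∉ p.asIdeal) (p : Crv G) :
    ∃ (i : PrimeSpectrum (BB G.d1) ⊕ PrimeSpectrum (BB G.d2)) (z : _), cmap G g1 g2 i z = p := by
  rcases (crvCharts G).cov p with ⟨q, rfl⟩ | ⟨q, rfl⟩
  · obtain ⟨z, hz⟩ := exists_away' (g1 q) q (h1 q)
    refine ⟨.inl q, z, ?_⟩
    change (crvCharts G).j₁ _ = _
    exact congrArg _ hz
  · obtain ⟨z, hz⟩ := exists_away' (g2 q) q (h2 q)
    refine ⟨.inr q, z, ?_⟩
    change (crvCharts G).j₂ _ = _
    exact congrArg _ hz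

lemma copen (i : PrimeSpectrum (BB G.d1) ⊕ PrimeSpectrum (BB G.d2)) :
    IsOpenImmersion (cmap G g1 g2 i) := by
  match i with
  | .inl _ => exact inferInstanceAs (IsOpenImmersion
          (Spec.map (CommRingCat.ofHom (algebraMap _ _)) ≫ (crvCharts G).j₁))
  | .inr _ => exact inferInstanceAs (IsOpenImmersion
          (Spec.map (CommRingCat.ofHom (algebraMap _ _)) ≫ (crvCharts G).j₂))

/-- the cover of the curve -/
noncomputable def ccover (h1 : ∀ p, g1 p ∉ p.asIdeal) (h2 : ∀ p, g2 p ∉ p.asIdeal) :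
    Scheme.OpenCover.{0} (Crv G) :=
  .mkOfCovers (PrimeSpectrum (BB G.d1) ⊕ PrimeSpectrum (BB G.d2)) (cobj G g1 g2) (cmap G g1 g2)
    (ccov G g1 g2 h1 h2) (copen G g1 g2)

theorem smooth_of_ring : S_smooth_ring → S_smooth := by
  intro hS R _ _ G h2 hd1 hd2
  have e1 := hS R G.d1 h2 hd1
  have e2 := hS R G.d2 h2 hd2
  choose g1 k1 s1 using e1
  choose g2 k2 s2 using e2
  have : IsZariskiLocalAtSource (@SmoothOfRelativeDimension 1) :=
    HasRingHomProperty.instIsZariskiLocalAtSource
      (Q := RingHom.Locally (RingHom.IsStandardSmoothOfRelativeDimension 1))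
  rw [IsZariskiLocalAtSource.iff_of_openCover (P := @SmoothOfRelativeDimension 1)
    (ccover G g1 g2 k1 k2)]
  have key : ∀ i : PrimeSpectrum (BB G.d1) ⊕ PrimeSpectrum (BB G.d2),
    SmoothOfRelativeDimension 1 (cmap G g1 g2 i ≫ crvMap G) := ?_
  · exact fun i => key i
  intro i
  match i with
  | .inl p =>
    change SmoothOfRelativeDimension 1 ((Spec.map (CommRingCat.ofHom (algebraMap _ _)) ≫
      (crvCharts G).j₁) ≫ crvMap G)
    rw [Category.assoc, (crvCharts G).h₁, ← Spec.map_comp, ← CommRingCat.ofHom_comp]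
    exact sp_of_std _ (s1 p)
  | .inr p =>
    change SmoothOfRelativeDimension 1 ((Spec.map (CommRingCat.ofHom (algebraMap _ _)) ≫
      (crvCharts G).j₂) ≫ crvMap G)
    rw [Category.assoc, (crvCharts G).h₂, ← Spec.map_comp, ← CommRingCat.ofHom_comp]
    exact sp_of_std _ (s2 p)

end Pool.Agent.H190.MG927
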